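import Mathlib

set_option autoImplicit false

namespace Pool.Agent.RepGrowth

open Finset Equiv

/-- For a tuple `a`, the number of permutations that sort it equals the size of its stabilizer. -/
lemma card_monotone_perm {k : ℕ} (a : Fin k → ℕ) :
    (univ.filter fun σ : Perm (Fin k) => Monotone (a ∘ σ)).card
      = (univ.filter fun σ : Perm (Fin k) => a ∘ σ = a).card := by
  classical
  refine Finset.card_bij' (fun σ _ => σ * (Tuple.sort a)⁻¹) (fun σ _ => σ * Tuple.sort a) ?_ ?_ ?_ ?_
  · intro σ hσ
    rw [mem_filter] at hσ ⊢
    refine ⟨mem_univ _, ?_⟩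
    have h := (Tuple.comp_sort_eq_comp_iff_monotone (f := a) (σ := σ)).2 hσ.2
    rw [Perm.coe_mul, ← Function.comp_assoc, h, Function.comp_assoc, ← Perm.coe_mul,
      mul_inv_cancel, Perm.coe_one, Function.comp_id]
  · intro σ hσ
    rw [mem_filter] at hσ ⊢
    refine ⟨mem_univ _, ?_⟩
    rw [Perm.coe_mul, ← Function.comp_assoc, hσ.2]
    exact Tuple.monotone_sort a
  · intro σ _
    simp
  · intro σ _
    simp

/-- Signed version: the signed size of the stabilizer counts the strictly sorting permutations. -/
lemma card_strictMono_perm {k : ℕ} (a : Fin k → ℕ) :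
    (((univ.filter fun σ : Perm (Fin k) => StrictMono (a ∘ σ)).card : ℤ)
      = ∑ σ ∈ univ.filter (fun σ : Perm (Fin k) => a ∘ σ = a), ((Perm.sign σ : ℤˣ) : ℤ)) := by
  classical
  by_cases ha : Function.Injective a
  · have h1 : (univ.filter fun σ : Perm (Fin k) => a ∘ σ = a) = {1} := by
      ext σ
      simp only [mem_filter, mem_univ, true_and, mem_singleton]
      constructor
      · intro h
        ext i
        have := congrFun h i
        simp only [Function.comp_apply] at this
        rw [ha this]; simp
      · rintro rfl
        rfl
    have h2 : (univ.filter fun σ : Perm (Fin k) => StrictMono (a ∘ σ))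
        = (univ.filter fun σ : Perm (Fin k) => Monotone (a ∘ σ)) := by
      ext σ
      simp only [mem_filter, mem_univ, true_and]
      constructor
      · intro h; exact h.monotone
      · intro h; exact h.strictMono_of_injective (ha.comp σ.injective)
    rw [h2, card_monotone_perm, h1]
    simp
  · have h2 : (univ.filter fun σ : Perm (Fin k) => StrictMono (a ∘ σ)) = ∅ := by
      ext σ
      simp only [mem_filter, mem_univ, true_and, notMem_empty, iff_false]
      intro h
      apply ha
      have := h.injective
      intro x y hxy
      have h3 : (a ∘ σ) (σ⁻¹ x) = (a ∘ σ) (σ⁻¹ y) := by simpa using hxy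
      exact σ⁻¹.injective (this h3)
    rw [h2]
    simp only [Function.Injective, not_forall] at ha
    obtain ⟨x, y, hxy, hne⟩ := ha
    symm
    rw [card_empty, Nat.cast_zero]
    refine Finset.sum_involution (fun σ _ => swap x y * σ) ?_ ?_ ?_ ?_
    · intro σ _
      simp [Perm.sign_swap hne]
    · intro σ _ _ h
      have := mul_eq_right.1 h
      exact hne (swap_eq_one_iff.1 this)
    · intro σ hσ
      simp only [mem_filter, mem_univ, true_and] at hσ ⊢
      ext i
      have h4 := congrFun hσ i
      simp only [Function.comp_apply] at h4
      simp only [Function.comp_apply, Perm.coe_mul]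
      rw [swap_apply_def]
      split_ifs with h5 h6
      · rw [← hxy, ← h5, h4]
      · rw [hxy, ← h6, h4]
      · exact h4
    · intro σ _
      simp [← mul_assoc]

end Pool.Agent.RepGrowth
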