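import Mathlib
import Pool.Agent.RepGrowth.Comb

set_option autoImplicit false

namespace Pool.Agent.RepGrowth

open Finset Equiv

/-- Product of finitely many absolutely convergent series (index `Fin n`). -/
lemma prod_tsum_fin (n : ℕ) : ∀ (g : Fin n → ℕ → ℂ), (∀ i, Summable fun m => ‖g i m‖) →
    (Summable (fun b : Fin n → ℕ => ‖∏ i, g i (b i)‖) ∧
      ∑' b : Fin n → ℕ, ∏ i, g i (b i) = ∏ i, ∑' m, g i m) := by
  induction n with
  | zero =>
    intro g _
    refine ⟨Summable.of_finite, ?_⟩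
    rw [tsum_fintype]
    simp
  | succ n ih =>
    intro g hg
    obtain ⟨h1, h2⟩ := ih (fun i => g i.succ) (fun i => hg i.succ)
    set G : (Fin n → ℕ) → ℂ := fun b => ∏ i, g i.succ (b i) with hG
    have h3 : Summable fun z : ℕ × (Fin n → ℕ) => ‖g 0 z.1 * G z.2‖ :=
      Summable.mul_norm (f := g 0) (g := G) (hg 0) h1
    have h4 := tsum_mul_tsum_of_summable_norm (f := g 0) (g := G) (hg 0) h1
    constructor
    · rw [← (Fin.consEquiv (fun _ => ℕ)).summable_iff]
      refine h3.congr ?_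
      intro z
      simp [Fin.consEquiv, Fin.prod_univ_succ, hG]
    · rw [← (Fin.consEquiv (fun _ => ℕ)).tsum_eq]
      rw [Fin.prod_univ_succ, ← h2, h4]
      refine tsum_congr ?_
      intro z
      simp [Fin.consEquiv, Fin.prod_univ_succ, hG]

/-- Product of finitely many absolutely convergent series (any finite index type). -/
lemma prod_tsum_fintype {ι : Type*} [Fintype ι] (g : ι → ℕ → ℂ)
    (hg : ∀ i, Summable fun m => ‖g i m‖) :
    Summable (fun b : ι → ℕ => ‖∏ i, g i (b i)‖) ∧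
      ∑' b : ι → ℕ, ∏ i, g i (b i) = ∏ i, ∑' m, g i m := by
  classical
  let e : ι ≃ Fin (Fintype.card ι) := Fintype.equivFin ι
  obtain ⟨h1, h2⟩ := prod_tsum_fin (Fintype.card ι) (fun i => g (e.symm i)) (fun i => hg _)
  let E : (ι → ℕ) ≃ (Fin (Fintype.card ι) → ℕ) := e.arrowCongr (Equiv.refl ℕ)
  have key : ∀ b : ι → ℕ, ∏ i, g i (b i) = ∏ j, g (e.symm j) (E b j) := by
    intro b
    rw [← Equiv.prod_comp e.symm]
    rfl
  constructor
  · rw [← E.summable_iff] at h1
    refine h1.congr ?_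
    intro b
    rw [key b]; rfl
  · have h5 : ∏ i, ∑' m, g i m = ∏ j, ∑' m, g (e.symm j) m := by
      rw [← Equiv.prod_comp e.symm]
    rw [h5, ← h2, ← E.tsum_eq]
    exact tsum_congr fun b => key b

/-- `phi A z n = z ^ n` if `n ∈ A` and `0` otherwise. -/
noncomputable def phi (A : Set ℕ) (z : ℂ) (n : ℕ) : ℂ := A.indicator (fun n => z ^ n) n

/-- The generating function of `A`. -/
noncomputable def gen (A : Set ℕ) (z : ℂ) : ℂ := ∑' n, phi A z n

lemma norm_phi_le (A : Set ℕ) (z : ℂ) (n : ℕ) : ‖phi A z n‖ ≤ ‖z‖ ^ n := by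
  unfold phi
  by_cases h : n ∈ A
  · simp [h]
  · simp [h]

lemma summable_norm_phi (A : Set ℕ) {z : ℂ} (hz : ‖z‖ < 1) : Summable fun n => ‖phi A z n‖ :=
  Summable.of_nonneg_of_le (fun _ => norm_nonneg _) (norm_phi_le A z)
    (summable_geometric_of_lt_one (norm_nonneg _) hz)

lemma phi_pow (A : Set ℕ) (z : ℂ) (n c : ℕ) (hc : 1 ≤ c) : phi A z n ^ c = phi A (z ^ c) n := by
  unfold phi
  by_cases h : n ∈ A
  · simp only [h, Set.indicator_of_mem]
    rw [← pow_mul, ← pow_mul, mul_comm]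
  · simp only [h, not_false_eq_true, Set.indicator_of_notMem]
    exact zero_pow (by omega)

/-- The weight of a tuple. -/
noncomputable def wt (A : Set ℕ) (z : ℂ) {k : ℕ} (a : Fin k → ℕ) : ℂ := ∏ i, phi A z (a i)

lemma summable_norm_wt (A : Set ℕ) {z : ℂ} (hz : ‖z‖ < 1) (k : ℕ) :
    Summable fun a : Fin k → ℕ => ‖wt A z a‖ :=
  (prod_tsum_fin k (fun _ => phi A z) (fun _ => summable_norm_phi A hz)).1

lemma tsum_wt (A : Set ℕ) {z : ℂ} (hz : ‖z‖ < 1) (k : ℕ) :
    ∑' a : Fin k → ℕ, wt A z a = gen A z ^ k := by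
  have := (prod_tsum_fin k (fun _ => phi A z) (fun _ => summable_norm_phi A hz)).2
  simp only [prod_const, card_univ, Fintype.card_fin] at this
  exact this

lemma wt_comp_perm (A : Set ℕ) (z : ℂ) {k : ℕ} (a : Fin k → ℕ) (σ : Perm (Fin k)) :
    wt A z (a ∘ σ) = wt A z a := by
  unfold wt
  exact Equiv.prod_comp σ (fun i => phi A z (a i))

open Classical in
/-- Sum of the weights over the tuples fixed by `σ`. -/
noncomputable def fixSum (A : Set ℕ) (z : ℂ) {k : ℕ} (σ : Perm (Fin k)) : ℂ :=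
  ∑' a : Fin k → ℕ, if a ∘ σ = a then wt A z a else 0

lemma summable_ite_wt (A : Set ℕ) {z : ℂ} (hz : ‖z‖ < 1) (k : ℕ) (P : (Fin k → ℕ) → Prop)
    [DecidablePred P] :
    Summable fun a : Fin k → ℕ => if P a then wt A z a else 0 := by
  refine Summable.of_norm_bounded (summable_norm_wt A hz k) ?_
  intro a
  split_ifs
  · exact le_rfl
  · simp

/-- A tuple fixed by `σ` is constant on the cycles of `σ`. -/
lemma comp_eq_iff_sameCycle {k : ℕ} (σ : Perm (Fin k)) (a : Fin k → ℕ) :
    a ∘ σ = a ↔ ∀ i j, σ.SameCycle i j → a i = a j := by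
  constructor
  · intro h
    have h1 : ∀ i, a (σ i) = a i := fun i => congrFun h i
    have h2 : ∀ (n : ℕ) i, a ((σ ^ n) i) = a i := by
      intro n
      induction n with
      | zero => intro i; simp
      | succ n ih =>
        intro i
        rw [pow_succ', Perm.mul_apply, h1, ih]
    rintro i j hij
    obtain ⟨n, -, hn⟩ := hij.exists_pow_eq'
    rw [← hn, h2]
  · intro h
    ext i
    exact (h i (σ i) (Perm.sameCycle_apply_right.2 (Perm.SameCycle.refl _ _))).symm

end Pool.Agent.RepGrowth
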