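import Mathlib
import Pool.Agent.RepGrowth.Sums

set_option autoImplicit false

namespace Pool.Agent.RepGrowth

open Finset Equiv

lemma norm_fixSum_le (A : Set ℕ) {z : ℂ} (hz : ‖z‖ < 1) {k : ℕ} (σ : Perm (Fin k)) (hσ : σ ≠ 1)
    (x : ℝ) (hx : 1 ≤ x) (hx' : ∀ j ∈ Icc 1 k, ‖gen A (z ^ j)‖ ≤ x) :
    ‖fixSum A z σ‖ ≤ x ^ (k - 1) := by
  classical
  let s : Setoid (Fin k) := Perm.SameCycle.setoid σ
  let π : Fin k → Quotient s := Quotient.mk s
  have hπ : Function.Surjective π := Quotient.mk_surjective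
  let c : Quotient s → ℕ := fun q => (univ.filter fun i => π i = q).card
  have hc : ∀ q, c q ∈ Icc 1 k := by
    intro q
    obtain ⟨i, hi⟩ := hπ q
    rw [mem_Icc]
    constructor
    · exact Finset.card_pos.2 ⟨i, by simp [hi]⟩
    · exact (Finset.card_le_univ _).trans (by simp)
  have hinj : Function.Injective (fun b : Quotient s → ℕ => b ∘ π) := hπ.injective_comp_right
  have hsum : fixSum A z σ = ∏ q, gen A (z ^ c q) := by
    unfold fixSum
    rw [← hinj.tsum_eq]
    · have h1 : ∀ b : Quotient s → ℕ,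
          (if (b ∘ π) ∘ σ = b ∘ π then wt A z (b ∘ π) else 0) = ∏ q, phi A (z ^ c q) (b q) := by
        intro b
        rw [if_pos]
        · unfold wt
          have h2 := Finset.prod_comp (s := (univ : Finset (Fin k)))
            (fun q : Quotient s => phi A z (b q)) π
          simp only [Function.comp_apply]
          rw [h2, Finset.image_univ_of_surjective hπ]
          refine Finset.prod_congr rfl fun q _ => ?_
          rw [phi_pow]
          exact (mem_Icc.1 (hc q)).1
        · rw [comp_eq_iff_sameCycle]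
          intro i j hij
          simp only [Function.comp_apply]
          congr 1
          exact Quotient.sound hij
      rw [tsum_congr h1]
      have h3 := (prod_tsum_fintype (fun q : Quotient s => phi A (z ^ c q)) ?_).2
      · exact h3
      · intro q
        refine summable_norm_phi A ?_
        rw [norm_pow]
        exact pow_lt_one₀ (norm_nonneg _) hz (by have := (mem_Icc.1 (hc q)).1; omega)
    · intro a ha
      rw [Function.mem_support] at ha
      have h4 : a ∘ σ = a := by
        by_contra h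
        exact ha (if_neg h)
      rw [comp_eq_iff_sameCycle] at h4
      exact ⟨Quotient.lift a h4, by ext i; rfl⟩
  rw [hsum, norm_prod]
  calc ∏ q, ‖gen A (z ^ c q)‖ ≤ ∏ _q : Quotient s, x :=
        Finset.prod_le_prod (fun _ _ => norm_nonneg _) (fun q _ => hx' _ (hc q))
    _ = x ^ (Fintype.card (Quotient s)) := by simp
    _ ≤ x ^ (k - 1) := by
        refine pow_le_pow_right₀ hx ?_
        have : Fintype.card (Quotient s) < Fintype.card (Fin k) := by
          refine Fintype.card_lt_of_surjective_not_injective π hπ ?_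
          intro h
          apply hσ
          ext i
          have h5 : π (σ i) = π i :=
            Quotient.sound (Perm.sameCycle_apply_left.2 (Perm.SameCycle.refl _ _))
          rw [h h5]; simp
        rw [Fintype.card_fin] at this
        omega

open Classical in
/-- Generating function of the admissible tuples satisfying `P`. -/
noncomputable def restrSum (A : Set ℕ) (z : ℂ) {k : ℕ} (P : (Fin k → ℕ) → Prop) : ℂ :=
  ∑' a : Fin k → ℕ, if P a then wt A z a else 0

lemma fixSum_one (A : Set ℕ) {z : ℂ} (hz : ‖z‖ < 1) (k : ℕ) :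
    fixSum A z (1 : Perm (Fin k)) = gen A z ^ k := by
  rw [← tsum_wt A hz k]
  unfold fixSum
  refine tsum_congr fun a => ?_
  simp

/-- Reindexing by permutations. -/
lemma restrSum_perm (A : Set ℕ) (z : ℂ) {k : ℕ} (P : (Fin k → ℕ) → Prop) (σ : Perm (Fin k)) :
    restrSum A z P = restrSum A z (fun a => P (a ∘ σ)) := by
  classical
  unfold restrSum
  let E : (Fin k → ℕ) ≃ (Fin k → ℕ) := (σ.symm.arrowCongr (Equiv.refl ℕ))
  rw [← E.tsum_eq]
  refine tsum_congr fun a => ?_
  have : E a = a ∘ σ := by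
    ext i
    simp [E, Equiv.arrowCongr]
  rw [this, wt_comp_perm]

lemma factorial_mul_restrSum (A : Set ℕ) {z : ℂ} (hz : ‖z‖ < 1) {k : ℕ}
    (P : (Fin k → ℕ) → Prop) [DecidablePred P] :
    ((k.factorial : ℕ) : ℂ) * restrSum A z P
      = ∑' a : Fin k → ℕ, ((univ.filter fun σ : Perm (Fin k) => P (a ∘ σ)).card : ℂ) * wt A z a := by
  classical
  have h1 : ((k.factorial : ℕ) : ℂ) * restrSum A z P
      = ∑ σ : Perm (Fin k), restrSum A z (fun a => P (a ∘ σ)) := by
    rw [Finset.sum_congr rfl (fun σ _ => (restrSum_perm A z P σ).symm)]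
    rw [Finset.sum_const, card_univ, Fintype.card_perm, Fintype.card_fin, nsmul_eq_mul]
  rw [h1]
  have h2 : ∀ σ : Perm (Fin k), restrSum A z (fun a => P (a ∘ σ))
      = ∑' a : Fin k → ℕ, (if P (a ∘ σ) then wt A z a else 0) := by
    intro σ
    unfold restrSum
    exact tsum_congr fun a => by congr
  rw [Finset.sum_congr rfl (fun σ _ => h2 σ)]
  have h3 := Summable.tsum_finsetSum (s := (univ : Finset (Perm (Fin k))))
    (f := fun (σ : Perm (Fin k)) (a : Fin k → ℕ) => if P (a ∘ σ) then wt A z a else 0)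
    (fun σ _ => summable_ite_wt A hz k (fun a => P (a ∘ σ)))
  rw [← h3]
  refine tsum_congr fun a => ?_
  rw [← Finset.sum_filter, Finset.sum_const, nsmul_eq_mul]

lemma factorial_mul_mono (A : Set ℕ) {z : ℂ} (hz : ‖z‖ < 1) (k : ℕ) :
    ((k.factorial : ℕ) : ℂ) * restrSum A z (fun a : Fin k → ℕ => Monotone a)
      = ∑ σ : Perm (Fin k), fixSum A z σ := by
  classical
  rw [factorial_mul_restrSum A hz]
  unfold fixSum
  rw [← Summable.tsum_finsetSum (fun σ _ => summable_ite_wt A hz k _)]
  refine tsum_congr fun a => ?_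
  rw [card_monotone_perm, ← Finset.sum_filter, Finset.sum_const, nsmul_eq_mul]

lemma factorial_mul_strictMono (A : Set ℕ) {z : ℂ} (hz : ‖z‖ < 1) (k : ℕ) :
    ((k.factorial : ℕ) : ℂ) * restrSum A z (fun a : Fin k → ℕ => StrictMono a)
      = ∑ σ : Perm (Fin k), (((Perm.sign σ : ℤˣ) : ℤ) : ℂ) * fixSum A z σ := by
  classical
  rw [factorial_mul_restrSum A hz]
  unfold fixSum
  have h0 : ∀ σ : Perm (Fin k), (((Perm.sign σ : ℤˣ) : ℤ) : ℂ) *
      (∑' a : Fin k → ℕ, if a ∘ σ = a then wt A z a else 0) =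
      ∑' a : Fin k → ℕ, (((Perm.sign σ : ℤˣ) : ℤ) : ℂ) * if a ∘ σ = a then wt A z a else 0 := by
    intro σ
    rw [tsum_mul_left]
  rw [Finset.sum_congr rfl (fun σ _ => h0 σ)]
  rw [← Summable.tsum_finsetSum (fun σ _ => (summable_ite_wt A hz k _).mul_left _)]
  refine tsum_congr fun a => ?_
  have h1 := card_strictMono_perm a
  have h2 : ((univ.filter fun σ : Perm (Fin k) => StrictMono (a ∘ σ)).card : ℂ)
      = ∑ σ ∈ univ.filter (fun σ : Perm (Fin k) => a ∘ σ = a), (((Perm.sign σ : ℤˣ) : ℤ) : ℂ) := by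
    have := congrArg (fun t : ℤ => (t : ℂ)) h1
    push_cast at this
    exact this
  rw [h2, Finset.sum_mul, Finset.sum_filter]
  refine Finset.sum_congr rfl fun σ _ => ?_
  split_ifs <;> simp

/-- The condition on tuples in the problem, for `i ∈ {1, 2, 3}`. -/
def cond (i : ℕ) {k : ℕ} (a : Fin k → ℕ) : Prop := (i = 2 → Monotone a) ∧ (i = 3 → StrictMono a)

/-- Main algebraic estimate: the generating function of `r_i` is `f^k` up to lower order terms. -/
lemma exists_const_norm_sub_le (k : ℕ) (i : ℕ) (hi : i ∈ ({1, 2, 3} : Finset ℕ)) :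
    ∃ c : ℝ, 0 ≤ c ∧ ∀ (A : Set ℕ) (z : ℂ), ‖z‖ < 1 → ∀ x : ℝ, 1 ≤ x →
      (∀ j ∈ Icc 1 k, ‖gen A (z ^ j)‖ ≤ x) →
      ‖gen A z‖ ^ k ≤ c * ‖restrSum A z (fun a : Fin k → ℕ => cond i a)‖
        + (k.factorial : ℝ) * x ^ (k - 1) := by
  classical
  have hcard : ((univ.erase (1 : Perm (Fin k))).card : ℝ) ≤ k.factorial := by
    have : (univ.erase (1 : Perm (Fin k))).card ≤ k.factorial := by
      refine (Finset.card_le_univ _).trans ?_
      rw [Fintype.card_perm, Fintype.card_fin]
    exact_mod_cast this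
  simp only [mem_insert, mem_singleton] at hi
  rcases hi with rfl | rfl | rfl
  · refine ⟨1, zero_le_one, ?_⟩
    intro A z hz x hx hx'
    have h1 : restrSum A z (fun a : Fin k → ℕ => cond 1 a) = gen A z ^ k := by
      rw [← tsum_wt A hz k]
      unfold restrSum
      refine tsum_congr fun a => ?_
      rw [if_pos]
      exact ⟨by intro h; omega, by intro h; omega⟩
    rw [h1, norm_pow]
    have : 0 ≤ (k.factorial : ℝ) * x ^ (k - 1) := by positivity
    linarith
  · refine ⟨k.factorial, by positivity, ?_⟩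
    intro A z hz x hx hx'
    have h1 : restrSum A z (fun a : Fin k → ℕ => cond 2 a)
        = restrSum A z (fun a : Fin k → ℕ => Monotone a) := by
      congr 1
      ext a
      simp [cond]
    have h2 := factorial_mul_mono A hz k
    rw [← Finset.add_sum_erase _ _ (mem_univ 1), fixSum_one A hz k] at h2
    have h3 : gen A z ^ k = ((k.factorial : ℕ) : ℂ) * restrSum A z (fun a : Fin k → ℕ => Monotone a)
        - ∑ σ ∈ univ.erase (1 : Perm (Fin k)), fixSum A z σ := by rw [h2]; ring
    have h4 : ‖∑ σ ∈ univ.erase (1 : Perm (Fin k)), fixSum A z σ‖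
        ≤ (k.factorial : ℝ) * x ^ (k - 1) := by
      refine (norm_sum_le _ _).trans ?_
      refine (Finset.sum_le_card_nsmul _ _ (x ^ (k - 1)) ?_).trans ?_
      · intro σ hσ
        exact norm_fixSum_le A hz σ (Finset.ne_of_mem_erase hσ) x hx hx'
      · rw [nsmul_eq_mul]
        gcongr
    rw [h1, ← norm_pow, h3]
    refine (norm_sub_le _ _).trans ?_
    rw [norm_mul]
    simp only [Complex.norm_natCast]
    linarith
  · refine ⟨k.factorial, by positivity, ?_⟩
    intro A z hz x hx hx'
    have h1 : restrSum A z (fun a : Fin k → ℕ => cond 3 a)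
        = restrSum A z (fun a : Fin k → ℕ => StrictMono a) := by
      congr 1
      ext a
      simp [cond]
    have h2 := factorial_mul_strictMono A hz k
    rw [← Finset.add_sum_erase _ _ (mem_univ 1), fixSum_one A hz k] at h2
    simp only [Perm.sign_one, Units.val_one, Int.cast_one, one_mul] at h2
    have h3 : gen A z ^ k
        = ((k.factorial : ℕ) : ℂ) * restrSum A z (fun a : Fin k → ℕ => StrictMono a)
        - ∑ σ ∈ univ.erase (1 : Perm (Fin k)), (((Perm.sign σ : ℤˣ) : ℤ) : ℂ) * fixSum A z σ := by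
      rw [h2]; ring
    have h4 : ‖∑ σ ∈ univ.erase (1 : Perm (Fin k)), (((Perm.sign σ : ℤˣ) : ℤ) : ℂ) * fixSum A z σ‖
        ≤ (k.factorial : ℝ) * x ^ (k - 1) := by
      refine (norm_sum_le _ _).trans ?_
      refine (Finset.sum_le_card_nsmul _ _ (x ^ (k - 1)) ?_).trans ?_
      · intro σ hσ
        rw [norm_mul]
        have h5 : ‖(((Perm.sign σ : ℤˣ) : ℤ) : ℂ)‖ = 1 := by
          rcases Int.units_eq_one_or (Perm.sign σ) with h | h <;> rw [h] <;> simp
        rw [h5, one_mul]
        exact norm_fixSum_le A hz σ (Finset.ne_of_mem_erase hσ) x hx hx'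
      · rw [nsmul_eq_mul]
        gcongr
    rw [h1, ← norm_pow, h3]
    refine (norm_sub_le _ _).trans ?_
    rw [norm_mul]
    simp only [Complex.norm_natCast]
    linarith

end Pool.Agent.RepGrowth
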