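import Mathlib
import Pool.Agent.RepGrowth.Fix

set_option autoImplicit false

namespace Pool.Agent.RepGrowth

open Finset Equiv

/-- Number of representations counted by the condition `cond i`. -/
noncomputable def rep (A : Set ℕ) (k i n : ℕ) : ℕ :=
  Set.ncard {a : Fin k → ℕ | (∀ j, a j ∈ A) ∧ (∑ j, a j) = n ∧
              (i = 2 → Monotone a) ∧ (i = 3 → StrictMono a)}

lemma repSet_finite (A : Set ℕ) (k i n : ℕ) :
    {a : Fin k → ℕ | (∀ j, a j ∈ A) ∧ (∑ j, a j) = n ∧
              (i = 2 → Monotone a) ∧ (i = 3 → StrictMono a)}.Finite := by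
  classical
  refine Set.Finite.subset (Fintype.piFinset (fun _ : Fin k => range (n + 1))).finite_toSet ?_
  rintro a ⟨-, h, -⟩
  simp only [Finset.mem_coe, Fintype.mem_piFinset, mem_range]
  intro j
  have : a j ≤ ∑ j, a j := Finset.single_le_sum (f := a) (fun _ _ => Nat.zero_le _) (mem_univ j)
  omega

open Classical in
lemma wt_eq (A : Set ℕ) (z : ℂ) {k : ℕ} (a : Fin k → ℕ) :
    wt A z a = if ∀ j, a j ∈ A then z ^ (∑ j, a j) else 0 := by
  unfold wt phi
  split_ifs with h
  · rw [← Finset.prod_pow_eq_pow_sum]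
    exact Finset.prod_congr rfl fun i _ => by simp [h i]
  · push Not at h
    obtain ⟨j, hj⟩ := h
    exact Finset.prod_eq_zero (mem_univ j) (by simp [hj])

lemma hasSum_rep (A : Set ℕ) {z : ℂ} (hz : ‖z‖ < 1) (k i : ℕ) :
    HasSum (fun n : ℕ => (rep A k i n : ℂ) * z ^ n)
      (restrSum A z (fun a : Fin k → ℕ => cond i a)) := by
  classical
  have h1 : HasSum (fun a : Fin k → ℕ => if cond i a then wt A z a else 0)
      (restrSum A z (fun a : Fin k → ℕ => cond i a)) := by
    have := (summable_ite_wt A hz k (fun a : Fin k → ℕ => cond i a)).hasSum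
    unfold restrSum
    convert this
  have h2 := h1.tsum_fiberwise (fun a : Fin k → ℕ => ∑ j, a j)
  suffices key : ∀ n : ℕ, (rep A k i n : ℂ) * z ^ n
      = ∑' b : ((fun a : Fin k → ℕ => ∑ j, a j) ⁻¹' {n} : Set (Fin k → ℕ)),
        (if cond i (b : Fin k → ℕ) then wt A z (b : Fin k → ℕ) else 0) by
    rw [show (fun n : ℕ => (rep A k i n : ℂ) * z ^ n) = _ from funext key]
    exact h2
  intro n
  rw [tsum_subtype ((fun a : Fin k → ℕ => ∑ j, a j) ⁻¹' {n})
    (fun a : Fin k → ℕ => if cond i a then wt A z a else 0)]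
  set T : Set (Fin k → ℕ) := {a : Fin k → ℕ | (∀ j, a j ∈ A) ∧ (∑ j, a j) = n ∧
              (i = 2 → Monotone a) ∧ (i = 3 → StrictMono a)} with hT
  have hTf : T.Finite := repSet_finite A k i n
  have h3 : ∀ a : Fin k → ℕ, ((fun a : Fin k → ℕ => ∑ j, a j) ⁻¹' {n}).indicator
      (fun a : Fin k → ℕ => if cond i a then wt A z a else 0) a
      = if a ∈ hTf.toFinset then z ^ n else 0 := by
    intro a
    by_cases hn : (∑ j, a j) = n
    · rw [Set.indicator_of_mem (by simpa using hn)]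
      by_cases hc : cond i a
      · rw [if_pos hc, wt_eq]
        by_cases hA : ∀ j, a j ∈ A
        · rw [if_pos hA, if_pos, hn]
          rw [Set.Finite.mem_toFinset]
          exact ⟨hA, hn, hc⟩
        · rw [if_neg hA, if_neg]
          rw [Set.Finite.mem_toFinset]
          intro h
          exact hA h.1
      · rw [if_neg hc, if_neg]
        rw [Set.Finite.mem_toFinset]
        intro h
        exact hc h.2.2
    · rw [Set.indicator_of_notMem (by simpa using hn), if_neg]
      rw [Set.Finite.mem_toFinset]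
      intro h
      exact hn h.2.1
  rw [tsum_congr h3]
  rw [tsum_eq_sum (s := hTf.toFinset)]
  · rw [Finset.sum_congr rfl (fun a ha => if_pos ha), Finset.sum_const, nsmul_eq_mul]
    unfold rep
    rw [Set.ncard_eq_toFinset_card _ hTf]
  · intro a ha
    exact if_neg ha

/-- Real generating function of `A`. -/
noncomputable def genR (A : Set ℕ) (r : ℝ) : ℝ := ∑' n, A.indicator (fun n => r ^ n) n

lemma norm_phi (A : Set ℕ) (z : ℂ) (n : ℕ) : ‖phi A z n‖ = A.indicator (fun n => ‖z‖ ^ n) n := by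
  unfold phi
  by_cases h : n ∈ A <;> simp [h]

lemma gen_ofReal (A : Set ℕ) (r : ℝ) : gen A (r : ℂ) = (genR A r : ℂ) := by
  unfold gen genR
  rw [Complex.ofReal_tsum]
  refine tsum_congr fun n => ?_
  unfold phi
  by_cases h : n ∈ A <;> simp [h]

lemma norm_restrSum_le (A : Set ℕ) {z : ℂ} (hz : ‖z‖ < 1) {k : ℕ} (P : (Fin k → ℕ) → Prop) :
    ‖restrSum A z P‖ ≤ genR A ‖z‖ ^ k := by
  classical
  have h1 : ‖restrSum A z P‖ ≤ ∑' a : Fin k → ℕ, ‖wt A z a‖ := by
    unfold restrSum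
    refine tsum_of_norm_bounded (summable_norm_wt A hz k).hasSum ?_
    intro a
    split_ifs
    · exact le_rfl
    · simp
  have h2 : ∑' a : Fin k → ℕ, ‖wt A z a‖ = genR A ‖z‖ ^ k := by
    have hz' : ‖((‖z‖ : ℝ) : ℂ)‖ < 1 := by simpa using hz
    have h3 := tsum_wt A hz' k
    rw [gen_ofReal] at h3
    have h4 : ∀ a : Fin k → ℕ, wt A ((‖z‖ : ℝ) : ℂ) a = ((‖wt A z a‖ : ℝ) : ℂ) := by
      intro a
      unfold wt
      rw [norm_prod, Complex.ofReal_prod]
      refine Finset.prod_congr rfl fun i _ => ?_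
      rw [norm_phi]
      unfold phi
      by_cases h : a i ∈ A <;> simp [h]
    rw [tsum_congr h4, ← Complex.ofReal_tsum] at h3
    exact_mod_cast h3
  rw [← h2]
  exact h1

lemma summable_rep (A : Set ℕ) (k i : ℕ) {r : ℝ} (h0 : 0 ≤ r) (h1 : r < 1) :
    Summable (fun n : ℕ => (rep A k i n : ℝ) * r ^ n) := by
  have hz : ‖(r : ℂ)‖ < 1 := by
    rw [Complex.norm_real, Real.norm_of_nonneg h0]; exact h1
  have := (hasSum_rep A hz k i).summable
  rw [← Complex.summable_ofReal]
  refine this.congr ?_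
  intro n
  push_cast
  rfl

/-- Real generating function of `r_i`. -/
noncomputable def repGen (A : Set ℕ) (k i : ℕ) (r : ℝ) : ℝ := ∑' n : ℕ, (rep A k i n : ℝ) * r ^ n

lemma restrSum_eq (A : Set ℕ) {z : ℂ} (hz : ‖z‖ < 1) (k i : ℕ) :
    restrSum A z (fun a : Fin k → ℕ => cond i a) = ∑' n : ℕ, ((rep A k i n : ℝ) : ℂ) * z ^ n := by
  rw [← (hasSum_rep A hz k i).tsum_eq]
  exact tsum_congr fun n => by simp

lemma repGen_le (A : Set ℕ) (k i : ℕ) {r : ℝ} (h0 : 0 ≤ r) (h1 : r < 1) :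
    repGen A k i r ≤ genR A r ^ k := by
  have hz : ‖(r : ℂ)‖ < 1 := by
    rw [Complex.norm_real, Real.norm_of_nonneg h0]; exact h1
  have h2 := restrSum_eq A hz k i
  have h3 : (∑' n : ℕ, ((rep A k i n : ℝ) : ℂ) * (r : ℂ) ^ n) = ((repGen A k i r : ℝ) : ℂ) := by
    unfold repGen
    rw [Complex.ofReal_tsum]
    exact tsum_congr fun n => by push_cast; rfl
  have h4 := norm_restrSum_le A hz (fun a : Fin k → ℕ => cond i a)
  rw [h2, h3] at h4
  simp only [Complex.norm_real, Real.norm_eq_abs, abs_of_nonneg h0] at h4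
  exact (le_abs_self _).trans h4

/-- `(1 - z) * sum` as a sum of differences (complex version). -/
lemma one_sub_mul_tsum (R : ℕ → ℂ) (z : ℂ) (hs : Summable fun n => R n * z ^ n) :
    (1 - z) * ∑' n, R n * z ^ n = R 0 + ∑' n, (R (n + 1) - R n) * z ^ (n + 1) := by
  have h1 : Summable fun n => R (n + 1) * z ^ (n + 1) := (summable_nat_add_iff 1).2 hs
  have h2 : Summable fun n => R n * z ^ (n + 1) := by
    refine (hs.mul_left z).congr fun n => ?_
    ring
  have h3 : ∑' n, R n * z ^ n = R 0 + ∑' n, R (n + 1) * z ^ (n + 1) := by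
    rw [hs.tsum_eq_zero_add]; simp
  have h4 : z * ∑' n, R n * z ^ n = ∑' n, R n * z ^ (n + 1) := by
    rw [← tsum_mul_left]
    exact tsum_congr fun n => by ring
  have h5 : ∑' n, (R (n + 1) - R n) * z ^ (n + 1)
      = ∑' n, R (n + 1) * z ^ (n + 1) - ∑' n, R n * z ^ (n + 1) := by
    rw [← h1.tsum_sub h2]
    exact tsum_congr fun n => by ring
  rw [sub_mul, one_mul, h4, h5, h3]
  ring

/-- `(1 - r) * sum` as a sum of differences (real version). -/
lemma one_sub_mul_tsum_real (R : ℕ → ℝ) (z : ℝ) (hs : Summable fun n => R n * z ^ n) :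
    (1 - z) * ∑' n, R n * z ^ n = R 0 + ∑' n, (R (n + 1) - R n) * z ^ (n + 1) := by
  have h1 : Summable fun n => R (n + 1) * z ^ (n + 1) := (summable_nat_add_iff 1).2 hs
  have h2 : Summable fun n => R n * z ^ (n + 1) := by
    refine (hs.mul_left z).congr fun n => ?_
    ring
  have h3 : ∑' n, R n * z ^ n = R 0 + ∑' n, R (n + 1) * z ^ (n + 1) := by
    rw [hs.tsum_eq_zero_add]; simp
  have h4 : z * ∑' n, R n * z ^ n = ∑' n, R n * z ^ (n + 1) := by
    rw [← tsum_mul_left]
    exact tsum_congr fun n => by ring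
  have h5 : ∑' n, (R (n + 1) - R n) * z ^ (n + 1)
      = ∑' n, R (n + 1) * z ^ (n + 1) - ∑' n, R n * z ^ (n + 1) := by
    rw [← h1.tsum_sub h2]
    exact tsum_congr fun n => by ring
  rw [sub_mul, one_mul, h4, h5, h3]
  ring

lemma norm_one_sub_mul_le (R : ℕ → ℝ) (hR : ∀ n, 0 ≤ R n) (n₀ : ℕ)
    (hmono : ∀ n, n₀ ≤ n → R n ≤ R (n + 1))
    (hs : ∀ r : ℝ, 0 ≤ r → r < 1 → Summable fun n => R n * r ^ n) (z : ℂ) (hz : ‖z‖ < 1) :
    ‖1 - z‖ * ‖∑' n, (R n : ℂ) * z ^ n‖
      ≤ (1 - ‖z‖) * ∑' n, R n * ‖z‖ ^ n + 2 * ∑ n ∈ range n₀, R n := by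
  set r := ‖z‖ with hr
  have hr0 : 0 ≤ r := norm_nonneg _
  have hsr := hs r hr0 hz
  have hsz : Summable fun n => (R n : ℂ) * z ^ n := by
    refine Summable.of_norm_bounded hsr ?_
    intro n
    rw [norm_mul, norm_pow, Complex.norm_real, Real.norm_of_nonneg (hR n)]
  rw [← norm_mul, one_sub_mul_tsum (fun n => (R n : ℂ)) z hsz, one_sub_mul_tsum_real R r hsr]
  -- the comparison series
  have hd1 : Summable fun n => (R (n + 1) - R n) * r ^ (n + 1) := by
    have h1 : Summable fun n => R (n + 1) * r ^ (n + 1) := (summable_nat_add_iff 1).2 hsr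
    have h2 : Summable fun n => R n * r ^ (n + 1) := by
      refine (hsr.mul_left r).congr fun n => ?_
      ring
    refine (h1.sub h2).congr fun n => ?_
    ring
  have hd2 : HasSum (fun n => if n ∈ range n₀ then 2 * R n else 0) (∑ n ∈ range n₀, 2 * R n) := by
    have h1 : HasSum (fun n => if n ∈ range n₀ then 2 * R n else 0)
        (∑ n ∈ range n₀, if n ∈ range n₀ then 2 * R n else 0) :=
      hasSum_sum_of_ne_finset_zero (fun n hn => if_neg hn)
    rw [Finset.sum_congr rfl (fun n hn => if_pos hn)] at h1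
    exact h1
  have hb : ∀ n, ‖((R (n + 1) : ℂ) - (R n : ℂ)) * z ^ (n + 1)‖
      ≤ (R (n + 1) - R n) * r ^ (n + 1) + (if n ∈ range n₀ then 2 * R n else 0) := by
    intro n
    rw [norm_mul, norm_pow, ← hr, ← Complex.ofReal_sub, Complex.norm_real, Real.norm_eq_abs]
    have hp0 : 0 ≤ r ^ (n + 1) := pow_nonneg hr0 _
    have hp1 : r ^ (n + 1) ≤ 1 := pow_le_one₀ hr0 hz.le
    by_cases hn : n ∈ range n₀
    · rw [if_pos hn]
      have h1 : |R (n + 1) - R n| ≤ (R (n + 1) - R n) + 2 * R n := by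
        rw [abs_le]
        constructor
        · have := hR (n + 1); linarith [hR n]
        · linarith [hR n]
      nlinarith [mul_nonneg (hR n) (sub_nonneg.2 hp1), hR n]
    · rw [if_neg hn, add_zero]
      rw [mem_range, not_lt] at hn
      rw [abs_of_nonneg (sub_nonneg.2 (hmono n hn))]
  have hfin := tsum_of_norm_bounded (hd1.hasSum.add hd2) hb
  have h0 : ‖(R 0 : ℂ)‖ = R 0 := by rw [Complex.norm_real, Real.norm_of_nonneg (hR 0)]
  refine (norm_add_le _ _).trans ?_
  rw [h0]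
  rw [← Finset.mul_sum] at hfin
  linarith

end Pool.Agent.RepGrowth
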