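import Mathlib
import Pool.Agent.RepGrowth.Gf

set_option autoImplicit false

namespace Pool.Agent.RepGrowth

open Finset Equiv MeasureTheory Real

/-- Point on the circle of radius `r` at angle `θ`. -/
noncomputable def pt (r θ : ℝ) : ℂ := (r : ℂ) * Complex.exp (θ * Complex.I)

lemma norm_pt {r : ℝ} (hr : 0 ≤ r) (θ : ℝ) : ‖pt r θ‖ = r := by
  unfold pt
  rw [norm_mul, Complex.norm_real, Real.norm_of_nonneg hr, Complex.norm_exp_ofReal_mul_I, mul_one]

/-- The measure on the angle interval. -/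
noncomputable def mu : Measure ℝ := volume.restrict (Set.Ioc (-π) π)

instance : IsFiniteMeasure mu := by
  unfold mu
  infer_instance

lemma integral_exp_int (m : ℤ) :
    ∫ θ, Complex.exp ((m : ℂ) * (θ * Complex.I)) ∂mu = if m = 0 then ((2 * π : ℝ) : ℂ) else 0 := by
  unfold mu
  rw [← intervalIntegral.integral_of_le (by linarith [Real.pi_pos])]
  split_ifs with h
  · subst h
    simp
    ring
  · have hc : (m : ℂ) * Complex.I ≠ 0 := mul_ne_zero (by exact_mod_cast h) Complex.I_ne_zero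
    have h1 : ∀ θ : ℝ, Complex.exp ((m : ℂ) * (θ * Complex.I))
        = Complex.exp (((m : ℂ) * Complex.I) * θ) := by
      intro θ; congr 1; ring
    simp_rw [h1]
    rw [integral_exp_mul_complex hc]
    rw [div_eq_zero_iff]
    left
    rw [sub_eq_zero, Complex.exp_eq_exp_iff_exists_int]
    refine ⟨m, ?_⟩
    push_cast
    ring

/-- Parseval identity for absolutely convergent series with distinct frequencies. -/
lemma parseval (c : ℕ → ℝ) (hc : Summable fun n => |c n|) (ν : ℕ → ℕ)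
    (hν : Function.Injective ν) :
    ∫ θ, ‖∑' n, (c n : ℂ) * Complex.exp ((ν n : ℂ) * (θ * Complex.I))‖ ^ 2 ∂mu
      = 2 * π * ∑' n, c n ^ 2 := by
  set g : ℝ → ℂ := fun θ => ∑' n, (c n : ℂ) * Complex.exp ((ν n : ℂ) * (θ * Complex.I)) with hg
  have hnorm : ∀ (m : ℤ) (θ : ℝ), ‖Complex.exp ((m : ℂ) * (θ * Complex.I))‖ = 1 := by
    intro m θ
    have : (m : ℂ) * (θ * Complex.I) = ((m * θ : ℝ) : ℂ) * Complex.I := by push_cast; ring
    rw [this, Complex.norm_exp_ofReal_mul_I]
  have hs1 : ∀ θ : ℝ, Summable fun n => ‖(c n : ℂ) * Complex.exp ((ν n : ℂ) * (θ * Complex.I))‖ := by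
    intro θ
    refine hc.congr fun n => ?_
    have := hnorm (ν n : ℤ) θ
    push_cast at this
    rw [norm_mul, this, mul_one, Complex.norm_real, Real.norm_eq_abs]
  have hs2 : ∀ θ : ℝ, Summable fun n => ‖(c n : ℂ) * Complex.exp (-(ν n : ℂ) * (θ * Complex.I))‖ := by
    intro θ
    refine hc.congr fun n => ?_
    have := hnorm (-(ν n : ℤ)) θ
    push_cast at this
    rw [norm_mul, this, mul_one, Complex.norm_real, Real.norm_eq_abs]
  have hconj : ∀ θ : ℝ, (starRingEnd ℂ) (g θ)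
      = ∑' n, (c n : ℂ) * Complex.exp (-(ν n : ℂ) * (θ * Complex.I)) := by
    intro θ
    rw [hg]
    simp only
    rw [Complex.conj_tsum]
    refine tsum_congr fun n => ?_
    rw [map_mul, Complex.conj_ofReal, ← Complex.exp_conj]
    congr 2
    simp
  have hsq : ∀ θ : ℝ, ((‖g θ‖ ^ 2 : ℝ) : ℂ)
      = ∑' p : ℕ × ℕ, ((c p.1 * c p.2 : ℝ) : ℂ) *
        Complex.exp ((((ν p.1 : ℤ) - (ν p.2 : ℤ) : ℤ) : ℂ) * (θ * Complex.I)) := by
    intro θ
    rw [Complex.ofReal_pow, ← Complex.mul_conj', hconj θ, hg]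
    simp only
    rw [tsum_mul_tsum_of_summable_norm (hs1 θ) (hs2 θ)]
    refine tsum_congr fun p => ?_
    have : Complex.exp ((((ν p.1 : ℤ) - (ν p.2 : ℤ) : ℤ) : ℂ) * (θ * Complex.I))
        = Complex.exp ((ν p.1 : ℂ) * (θ * Complex.I)) * Complex.exp (-(ν p.2 : ℂ) * (θ * Complex.I)) := by
      rw [← Complex.exp_add]
      congr 1
      push_cast
      ring
    rw [this]
    push_cast
    ring
  have hsum : Summable fun p : ℕ × ℕ => |c p.1| * |c p.2| :=
    Summable.mul_of_nonneg hc hc (fun _ => abs_nonneg _) (fun _ => abs_nonneg _)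
  have hint : ∀ p : ℕ × ℕ, Integrable (fun θ : ℝ => ((c p.1 * c p.2 : ℝ) : ℂ) *
        Complex.exp ((((ν p.1 : ℤ) - (ν p.2 : ℤ) : ℤ) : ℂ) * (θ * Complex.I))) mu := by
    intro p
    refine Integrable.mono' (integrable_const (|c p.1| * |c p.2|)) ?_ ?_
    · exact (by fun_prop : Continuous _).aestronglyMeasurable
    · refine Filter.Eventually.of_forall fun θ => ?_
      rw [norm_mul, hnorm, mul_one, Complex.norm_real, Real.norm_eq_abs, abs_mul]
  have h1 := hasSum_integral_of_summable_integral_norm (μ := mu) hint (by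
    have : ∀ p : ℕ × ℕ, ∫ θ, ‖((c p.1 * c p.2 : ℝ) : ℂ) *
        Complex.exp ((((ν p.1 : ℤ) - (ν p.2 : ℤ) : ℤ) : ℂ) * (θ * Complex.I))‖ ∂mu
        = (|c p.1| * |c p.2|) * ∫ _θ, (1 : ℝ) ∂mu := by
      intro p
      rw [← integral_const_mul]
      refine integral_congr_ae (Filter.Eventually.of_forall fun θ => ?_)
      simp only
      rw [norm_mul, hnorm, mul_one, Complex.norm_real, Real.norm_eq_abs, abs_mul, mul_one]
    simp_rw [this]
    exact hsum.mul_right _)
  have h2 : ∫ θ, ((‖g θ‖ ^ 2 : ℝ) : ℂ) ∂mu = ∑' p : ℕ × ℕ, ∫ θ, ((c p.1 * c p.2 : ℝ) : ℂ) *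
        Complex.exp ((((ν p.1 : ℤ) - (ν p.2 : ℤ) : ℤ) : ℂ) * (θ * Complex.I)) ∂mu := by
    rw [h1.tsum_eq]
    exact integral_congr_ae (Filter.Eventually.of_forall fun θ => hsq θ)
  have h3 : ∀ p : ℕ × ℕ, ∫ θ, ((c p.1 * c p.2 : ℝ) : ℂ) *
        Complex.exp ((((ν p.1 : ℤ) - (ν p.2 : ℤ) : ℤ) : ℂ) * (θ * Complex.I)) ∂mu
        = if p.1 = p.2 then ((c p.1 * c p.2 * (2 * π) : ℝ) : ℂ) else 0 := by
    intro p
    rw [integral_const_mul, integral_exp_int]
    by_cases hp : p.1 = p.2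
    · rw [if_pos hp, if_pos (by rw [hp]; simp)]
      push_cast
      ring
    · rw [if_neg hp, if_neg, mul_zero]
      intro h
      apply hp
      apply hν
      have : (ν p.1 : ℤ) = ν p.2 := by linarith
      exact_mod_cast this
  rw [tsum_congr h3] at h2
  have hinj : Function.Injective (fun n : ℕ => (n, n)) := by
    intro a b hab
    exact (Prod.ext_iff.1 hab).1
  rw [← hinj.tsum_eq] at h2
  · simp only [if_true] at h2
    rw [← Complex.ofReal_tsum, integral_complex_ofReal] at h2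
    have h4 := Complex.ofReal_injective h2
    rw [h4, tsum_mul_right, mul_comm]
    congr 1
    exact tsum_congr fun n => by ring
  · rintro ⟨a, b⟩ hab
    rw [Function.mem_support] at hab
    by_cases h : a = b
    · exact ⟨a, by simp [h]⟩
    · exact absurd (if_neg h) hab

/-- Continuity in the angle. -/
lemma continuous_series (c : ℕ → ℝ) (hc : Summable fun n => |c n|) (ν : ℕ → ℕ) :
    Continuous fun θ : ℝ => ∑' n, (c n : ℂ) * Complex.exp ((ν n : ℂ) * (θ * Complex.I)) := by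
  refine continuous_tsum (fun n => by fun_prop) hc ?_
  intro n θ
  have : (ν n : ℂ) * (θ * Complex.I) = ((ν n * θ : ℝ) : ℂ) * Complex.I := by push_cast; ring
  rw [norm_mul, this, Complex.norm_exp_ofReal_mul_I, Complex.norm_real, Real.norm_eq_abs, mul_one]

end Pool.Agent.RepGrowth
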