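import Mathlib
import Pool.Agent.RepGrowth.Circle

set_option autoImplicit false

namespace Pool.Agent.RepGrowth

open Finset Equiv MeasureTheory Real

lemma norm_one_sub_pt_ge {r θ : ℝ} (hr : 1 / 4 ≤ r) (hθ : |θ| ≤ π) :
    |θ| / π ≤ ‖1 - pt r θ‖ := by
  have hpi := Real.pi_pos
  have h1 : ‖1 - pt r θ‖ ^ 2 = 1 - 2 * r * Real.cos θ + r ^ 2 := by
    rw [← Complex.normSq_eq_norm_sq, Complex.normSq_apply]
    unfold pt
    simp only [Complex.sub_re, Complex.one_re, Complex.mul_re, Complex.ofReal_re,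
      Complex.ofReal_im, Complex.sub_im, Complex.one_im, Complex.mul_im,
      Complex.exp_ofReal_mul_I_re, Complex.exp_ofReal_mul_I_im]
    have := Real.sin_sq_add_cos_sq θ
    nlinarith
  have h2 := Real.cos_le_one_sub_mul_cos_sq hθ
  have h3 : (|θ| / π) ^ 2 ≤ ‖1 - pt r θ‖ ^ 2 := by
    rw [h1, div_pow, sq_abs]
    have h4 : 2 / π ^ 2 * θ ^ 2 ≤ 1 - Real.cos θ := by linarith
    have h5 : 0 ≤ θ ^ 2 / π ^ 2 := by positivity
    have h6 : 2 * (θ ^ 2 / π ^ 2) ≤ 1 - Real.cos θ := by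
      calc 2 * (θ ^ 2 / π ^ 2) = 2 / π ^ 2 * θ ^ 2 := by ring
        _ ≤ _ := h4
    nlinarith [sq_nonneg (1 - r)]
  exact le_of_sq_le_sq h3 (norm_nonneg _)

lemma integrable_abs_rpow {s : ℝ} (hs : s < 1) : Integrable (fun θ : ℝ => |θ| ^ (-s)) mu := by
  have hpi := Real.pi_pos
  have h1 : IntegrableOn (fun θ : ℝ => θ ^ (-s)) (Set.Ioc 0 π) volume := by
    have := (intervalIntegral.intervalIntegrable_rpow' (a := 0) (b := π) (r := -s) (by linarith))
    rwa [intervalIntegrable_iff_integrableOn_Ioc_of_le hpi.le] at this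
  have h2 : IntegrableOn (fun θ : ℝ => |θ| ^ (-s)) (Set.Ioc 0 π) volume := by
    refine h1.congr_fun ?_ measurableSet_Ioc
    intro θ hθ
    simp only
    rw [abs_of_pos hθ.1]
  have h3 : IntegrableOn (fun θ : ℝ => |θ| ^ (-s)) (Set.Ico (-π) 0) volume := by
    have := h2.comp_neg
    simp only [abs_neg] at this
    rwa [show -(Set.Ioc 0 π) = Set.Ico (-π) 0 by simp] at this
  have h4 : IntegrableOn (fun θ : ℝ => |θ| ^ (-s)) (Set.Ico (-π) 0 ∪ {0} ∪ Set.Ioc 0 π) volume := by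
    refine (h3.union ?_).union h2
    exact integrableOn_singleton (by simp) (by simp)
  unfold mu
  refine h4.mono_set ?_
  intro θ hθ
  rcases lt_trichotomy θ 0 with h | h | h
  · exact Or.inl (Or.inl ⟨hθ.1.le, h⟩)
  · exact Or.inl (Or.inr h)
  · exact Or.inr ⟨h, hθ.2⟩

lemma gen_pt_pow (A : Set ℕ) {r : ℝ} (θ : ℝ) (j : ℕ) :
    gen A (pt r θ ^ j) = ∑' n, ((A.indicator (fun n => r ^ (j * n)) n : ℝ) : ℂ) *
      Complex.exp (((j * n : ℕ) : ℂ) * (θ * Complex.I)) := by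
  unfold gen
  refine tsum_congr fun n => ?_
  unfold phi
  by_cases h : n ∈ A
  · simp only [h, Set.indicator_of_mem]
    unfold pt
    rw [← pow_mul, mul_pow, ← Complex.exp_nat_mul]
    push_cast
    rfl
  · simp [h]

lemma summable_coeff (A : Set ℕ) {r : ℝ} (hr0 : 0 ≤ r) (hr1 : r < 1) {j : ℕ} (hj : 1 ≤ j) :
    Summable fun n => |A.indicator (fun n => r ^ (j * n)) n| := by
  have h1 : r ^ j < 1 := pow_lt_one₀ hr0 hr1 (by omega)
  refine Summable.of_nonneg_of_le (fun _ => abs_nonneg _) ?_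
    (summable_geometric_of_lt_one (pow_nonneg hr0 j) h1)
  intro n
  by_cases h : n ∈ A
  · simp only [h, Set.indicator_of_mem]
    rw [abs_of_nonneg (pow_nonneg hr0 _), pow_mul]
  · simp only [h, not_false_eq_true, Set.indicator_of_notMem, abs_zero]
    positivity

lemma summable_genR (A : Set ℕ) {r : ℝ} (hr0 : 0 ≤ r) (hr1 : r < 1) :
    Summable fun n => A.indicator (fun n => r ^ n) n := by
  have := summable_coeff A hr0 hr1 (le_refl 1)
  simp only [one_mul] at this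
  exact this.of_abs

/-- `∫ |f(z^j)|^2 = 2 π f(r^(2j))`. -/
lemma integral_norm_gen_sq (A : Set ℕ) {r : ℝ} (hr0 : 0 ≤ r) (hr1 : r < 1) {j : ℕ} (hj : 1 ≤ j) :
    ∫ θ, ‖gen A (pt r θ ^ j)‖ ^ 2 ∂mu = 2 * π * genR A (r ^ (2 * j)) := by
  simp_rw [gen_pt_pow]
  rw [parseval _ (summable_coeff A hr0 hr1 hj) (fun n => j * n)]
  · congr 1
    unfold genR
    refine tsum_congr fun n => ?_
    by_cases h : n ∈ A
    · simp only [h, Set.indicator_of_mem]
      rw [← pow_mul, ← pow_mul]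
      congr 1
      ring
    · simp [h]
  · intro a b hab
    exact Nat.eq_of_mul_eq_mul_left (by omega) hab

lemma continuous_gen_pt (A : Set ℕ) {r : ℝ} (hr0 : 0 ≤ r) (hr1 : r < 1) {j : ℕ} (hj : 1 ≤ j) :
    Continuous fun θ : ℝ => gen A (pt r θ ^ j) := by
  simp_rw [gen_pt_pow]
  exact continuous_series _ (summable_coeff A hr0 hr1 hj) (fun n => j * n)

lemma integrable_norm_gen_sq (A : Set ℕ) {r : ℝ} (hr0 : 0 ≤ r) (hr1 : r < 1) {j : ℕ}
    (hj : 1 ≤ j) : Integrable (fun θ => ‖gen A (pt r θ ^ j)‖ ^ 2) mu := by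
  have hcont : Continuous fun θ : ℝ => ‖gen A (pt r θ ^ j)‖ ^ 2 :=
    ((continuous_gen_pt A hr0 hr1 hj).norm).pow 2
  unfold mu
  exact (hcont.integrableOn_Icc (a := -π) (b := π)).mono_set Set.Ioc_subset_Icc_self

lemma genR_mono (A : Set ℕ) {r s : ℝ} (hr0 : 0 ≤ r) (hrs : r ≤ s) (hs : s < 1) :
    genR A r ≤ genR A s := by
  unfold genR
  refine (summable_genR A hr0 (hrs.trans_lt hs)).tsum_le_tsum ?_
    (summable_genR A (hr0.trans hrs) hs)
  intro n
  by_cases h : n ∈ A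
  · simp only [h, Set.indicator_of_mem]
    exact pow_le_pow_left₀ hr0 hrs n
  · simp [h]

lemma genR_nonneg (A : Set ℕ) {r : ℝ} (hr0 : 0 ≤ r) : 0 ≤ genR A r := by
  unfold genR
  refine tsum_nonneg fun n => ?_
  by_cases h : n ∈ A
  · simp only [h, Set.indicator_of_mem]
    positivity
  · simp [h]

end Pool.Agent.RepGrowth
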