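import Mathlib
import Pool.Agent.RepGrowth.MainIneq

set_option autoImplicit false

namespace Pool.Agent.RepGrowth

open Finset Equiv MeasureTheory Real

/-- There are arbitrarily large represented numbers. -/
lemma exists_rep_pos (k : ℕ) (hk : 2 ≤ k) (i : ℕ) (A : Set ℕ) (hA : A.Infinite) (n₀ : ℕ) :
    ∃ n, n₀ ≤ n ∧ 1 ≤ rep A k i n := by
  classical
  have _ : Infinite A := hA.to_subtype
  let e : ℕ ↪o ℕ := Nat.orderEmbeddingOfSet A
  have he : ∀ n, e n ∈ A := fun n => by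
    rw [Nat.orderEmbeddingOfSet_apply]
    exact (Nat.Subtype.ofNat A n).2
  have hge : ∀ n, n ≤ e n := fun n => e.strictMono.le_apply
  let a : Fin k → ℕ := fun j => e (n₀ + j)
  have ha : StrictMono a := by
    intro x y hxy
    exact e.strictMono (by have : (x : ℕ) < y := hxy; omega)
  refine ⟨∑ j, a j, ?_, ?_⟩
  · have h1 : a ⟨0, by omega⟩ ≤ ∑ j, a j :=
      Finset.single_le_sum (f := a) (fun _ _ => Nat.zero_le _) (mem_univ _)
    have h2 : n₀ + 0 ≤ e (n₀ + 0) := hge _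
    have h3 : a ⟨0, by omega⟩ = e (n₀ + 0) := rfl
    omega
  · unfold rep
    rw [Nat.one_le_iff_ne_zero, ← Nat.pos_iff_ne_zero, Set.ncard_pos (repSet_finite A k i _)]
    exact ⟨a, fun j => he _, rfl, fun _ => ha.monotone, fun _ => ha⟩

lemma rep_pos_of_ge (k : ℕ) (hk : 2 ≤ k) (i : ℕ) (A : Set ℕ) (hA : A.Infinite) (n₀ : ℕ)
    (hmono : ∀ n, n₀ ≤ n → rep A k i n ≤ rep A k i (n + 1)) :
    ∃ n₁, ∀ n, n₁ ≤ n → 1 ≤ rep A k i n := by
  obtain ⟨n₁, h1, h2⟩ := exists_rep_pos k hk i A hA n₀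
  refine ⟨n₁, fun n hn => ?_⟩
  induction n, hn using Nat.le_induction with
  | base => exact h2
  | succ m hm ih => exact ih.trans (hmono m (h1.trans hm))

lemma repGen_lower (k : ℕ) (i : ℕ) (A : Set ℕ) (n₁ : ℕ) (h : ∀ n, n₁ ≤ n → 1 ≤ rep A k i n)
    {r : ℝ} (hr0 : 0 ≤ r) (hr1 : r < 1) : r ^ n₁ ≤ (1 - r) * repGen A k i r := by
  have hs := summable_rep A k i hr0 hr1
  have h1 : ∑' n, r ^ (n + n₁) ≤ ∑' n, (rep A k i (n + n₁) : ℝ) * r ^ (n + n₁) := by
    refine Summable.tsum_le_tsum ?_ ?_ ((summable_nat_add_iff n₁).2 hs)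
    · intro n
      have : (1 : ℝ) ≤ rep A k i (n + n₁) := by exact_mod_cast h (n + n₁) (by omega)
      exact le_mul_of_one_le_left (by positivity) this
    · exact (summable_nat_add_iff n₁).2 (summable_geometric_of_lt_one hr0 hr1)
  have h2 : ∑' n, (rep A k i (n + n₁) : ℝ) * r ^ (n + n₁) ≤ repGen A k i r := by
    unfold repGen
    rw [← hs.sum_add_tsum_nat_add n₁]
    have : 0 ≤ ∑ i_1 ∈ range n₁, (rep A k i i_1 : ℝ) * r ^ i_1 :=
      Finset.sum_nonneg fun _ _ => by positivity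
    linarith
  have h3 : ∑' n, r ^ (n + n₁) = r ^ n₁ / (1 - r) := by
    simp_rw [pow_add]
    rw [tsum_mul_right, tsum_geometric_of_lt_one hr0 hr1]
    rw [div_eq_mul_inv, mul_comm]
  have h4 : 0 < 1 - r := by linarith
  rw [h3] at h1
  have h5 := h1.trans h2
  rw [div_le_iff₀ h4] at h5
  linarith

/-- Upper bound for the generating function from the counting function. -/
lemma genR_upper (A : Set ℕ) (α : ℝ) (hα0 : 0 < α) (hα1 : α ≤ 1) (C : ℝ) (N : ℕ)
    (h : ∀ n : ℕ, N ≤ n → ((A ∩ Set.Icc 1 n).ncard : ℝ) ≤ C * (n : ℝ) ^ α) :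
    ∃ K : ℝ, 0 < K ∧ ∀ r : ℝ, 0 ≤ r → r < 1 → genR A r ≤ K * (1 - r) ^ (-α) := by
  classical
  set R : ℕ → ℝ := fun n => ∑ m ∈ range (n + 1), (if m ∈ A then (1 : ℝ) else 0) with hR
  have hR0 : ∀ n, 0 ≤ R n := fun n => Finset.sum_nonneg fun _ _ => by split_ifs <;> norm_num
  have hRle : ∀ n, R n ≤ 1 + ((A ∩ Set.Icc 1 n).ncard : ℝ) := by
    intro n
    have h1 : R n = ((range (n + 1)).filter (fun m => m ∈ A)).card := by
      rw [hR]; simp
    have h2 : ((range (n + 1)).filter (fun m => m ∈ A)).card ≤ 1 + (A ∩ Set.Icc 1 n).ncard := by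
      have h3 : (A ∩ Set.Icc 1 n) = (((Icc 1 n).filter (fun m => m ∈ A) : Finset ℕ) : Set ℕ) := by
        ext m
        simp only [Set.mem_inter_iff, Set.mem_Icc, coe_filter, mem_Icc, Set.mem_ofPred_eq]
        tauto
      rw [h3, Set.ncard_coe_finset]
      have h4 : (range (n + 1)).filter (fun m => m ∈ A)
          ⊆ {0} ∪ (Icc 1 n).filter (fun m => m ∈ A) := by
        intro m hm
        rw [mem_filter, mem_range] at hm
        rw [mem_union, mem_singleton, mem_filter, mem_Icc]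
        rcases Nat.eq_zero_or_pos m with h0 | h0
        · exact Or.inl h0
        · exact Or.inr ⟨⟨h0, by omega⟩, hm.2⟩
      refine (Finset.card_le_card h4).trans ((Finset.card_union_le _ _).trans ?_)
      simp
    rw [h1]
    exact_mod_cast h2
  have hRle2 : ∀ n, R n ≤ n + 1 := by
    intro n
    have : R n ≤ ∑ _m ∈ range (n + 1), (1 : ℝ) :=
      Finset.sum_le_sum fun _ _ => by split_ifs <;> norm_num
    simpa using this
  set C' : ℝ := 1 + |C| + N with hC'
  have hC'0 : 0 < C' := by positivity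
  have hbound : ∀ n : ℕ, R n ≤ C' * ((n : ℝ) + 1) ^ α := by
    intro n
    have hn1 : (1 : ℝ) ≤ ((n : ℝ) + 1) ^ α := Real.one_le_rpow (by linarith [n.cast_nonneg (α := ℝ)]) hα0.le
    by_cases hn : N ≤ n
    · have h1 := h n hn
      have h2 : (n : ℝ) ^ α ≤ ((n : ℝ) + 1) ^ α :=
        Real.rpow_le_rpow (Nat.cast_nonneg n) (by linarith) hα0.le
      have h3 : C * (n : ℝ) ^ α ≤ |C| * ((n : ℝ) + 1) ^ α :=
        mul_le_mul (le_abs_self C) h2 (by positivity) (abs_nonneg C)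
      have h4 := hRle n
      have h5 : 0 ≤ (N : ℝ) * ((n : ℝ) + 1) ^ α := by positivity
      rw [hC']
      nlinarith
    · push Not at hn
      have h1 := hRle2 n
      have h2 : (n : ℝ) + 1 ≤ N := by exact_mod_cast hn
      have h3 : 0 ≤ |C| * ((n : ℝ) + 1) ^ α := by positivity
      rw [hC']
      nlinarith [N.cast_nonneg (α := ℝ)]
  refine ⟨2 * C', by positivity, ?_⟩
  intro r hr0 hr1
  have h1r : 0 < 1 - r := by linarith
  have hrn : ‖r‖ < 1 := by rw [Real.norm_of_nonneg hr0]; exact hr1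
  set X : ℝ := 1 / (1 - r) with hX
  have hX0 : 0 < X := by positivity
  have hgs : Summable fun n : ℕ => r ^ n := summable_geometric_of_lt_one hr0 hr1
  have hns : HasSum (fun n : ℕ => ((n : ℝ) + 1) * r ^ n) (X ^ 2) := by
    have h1 := hasSum_coe_mul_geometric_of_norm_lt_one hrn
    have h2 := hasSum_geometric_of_lt_one hr0 hr1
    have h3 := h1.add h2
    have h4 : X ^ 2 = r / (1 - r) ^ 2 + (1 - r)⁻¹ := by
      rw [hX]; field_simp; ring
    have h5 : (fun n : ℕ => ((n : ℝ) + 1) * r ^ n) = fun n : ℕ => (n : ℝ) * r ^ n + r ^ n := by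
      ext n; ring
    rw [h4, h5]
    exact h3
  have hpt : ∀ n : ℕ, ((n : ℝ) + 1) ^ α ≤ X ^ α + X ^ (α - 1) * ((n : ℝ) + 1) := by
    intro n
    have hn0 : (0 : ℝ) < (n : ℝ) + 1 := by positivity
    by_cases hn : (n : ℝ) + 1 ≤ X
    · have h1 : ((n : ℝ) + 1) ^ α ≤ X ^ α := Real.rpow_le_rpow hn0.le hn hα0.le
      have h2 : 0 ≤ X ^ (α - 1) * ((n : ℝ) + 1) := by positivity
      linarith
    · push Not at hn
      have h1 : ((n : ℝ) + 1) ^ α = ((n : ℝ) + 1) ^ (α - 1) * ((n : ℝ) + 1) := by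
        rw [← Real.rpow_add_one hn0.ne']; congr 1; ring
      have h2 : ((n : ℝ) + 1) ^ (α - 1) ≤ X ^ (α - 1) :=
        Real.rpow_le_rpow_of_nonpos hX0 hn.le (by linarith)
      have h3 : 0 ≤ X ^ α := by positivity
      rw [h1]
      nlinarith
  have hsR : Summable fun n => R n * r ^ n := by
    refine Summable.of_nonneg_of_le (fun n => mul_nonneg (hR0 n) (pow_nonneg hr0 n)) ?_ hns.summable
    intro n
    exact mul_le_mul_of_nonneg_right (hRle2 n) (pow_nonneg hr0 n)
  have hid := one_sub_mul_tsum_real R r hsR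
  have hgen : genR A r = (1 - r) * ∑' n, R n * r ^ n := by
    rw [hid]
    unfold genR
    rw [(summable_genR A hr0 hr1).tsum_eq_zero_add]
    congr 1
    · rw [hR]
      simp only [zero_add, range_one, sum_singleton]
      by_cases h0 : 0 ∈ A <;> simp [h0]
    · refine tsum_congr fun n => ?_
      have : R (n + 1) - R n = if (n + 1) ∈ A then (1 : ℝ) else 0 := by
        rw [hR]
        simp only
        rw [Finset.sum_range_succ _ (n + 1)]
        ring
      rw [this]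
      by_cases h0 : (n + 1) ∈ A <;> simp [h0]
  have hle : ∑' n, R n * r ^ n ≤ C' * (X ^ α * X + X ^ (α - 1) * X ^ 2) := by
    have h1 : HasSum (fun n : ℕ => C' * (X ^ α * r ^ n + X ^ (α - 1) * (((n : ℝ) + 1) * r ^ n)))
        (C' * (X ^ α * X + X ^ (α - 1) * X ^ 2)) := by
      refine HasSum.mul_left _ (HasSum.add ?_ (hns.mul_left _))
      refine HasSum.mul_left _ ?_
      have := hasSum_geometric_of_lt_one hr0 hr1
      rwa [← one_div] at this
    refine hasSum_le ?_ hsR.hasSum h1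
    intro n
    have h2 := hbound n
    have h3 := hpt n
    have h4 : 0 ≤ r ^ n := pow_nonneg hr0 n
    have h5 : R n ≤ C' * (X ^ α + X ^ (α - 1) * ((n : ℝ) + 1)) :=
      h2.trans (mul_le_mul_of_nonneg_left h3 hC'0.le)
    calc R n * r ^ n ≤ (C' * (X ^ α + X ^ (α - 1) * ((n : ℝ) + 1))) * r ^ n :=
          mul_le_mul_of_nonneg_right h5 h4
      _ = _ := by ring
  have hXa : X ^ (α - 1) * X ^ 2 = X ^ α * X := by
    have : X ^ α = X ^ (α - 1) * X := by
      rw [← Real.rpow_add_one hX0.ne']; congr 1; ring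
    rw [this]; ring
  rw [hXa] at hle
  have hXr : (1 - r) * X = 1 := by rw [hX]; field_simp
  have hXα : X ^ α = (1 - r) ^ (-α) := by
    rw [hX, one_div, Real.inv_rpow h1r.le, Real.rpow_neg h1r.le]
  rw [hgen]
  calc (1 - r) * ∑' n, R n * r ^ n ≤ (1 - r) * (C' * (X ^ α * X + X ^ α * X)) :=
        mul_le_mul_of_nonneg_left hle h1r.le
    _ = 2 * C' * X ^ α * ((1 - r) * X) := by ring
    _ = 2 * C' * (1 - r) ^ (-α) := by rw [hXr, hXα]; ring

/-- The main theorem. -/
theorem main (k : ℕ) (hk : 2 ≤ k) (i : ℕ) (hi : i ∈ ({1, 2, 3} : Finset ℕ)) (ε : ℝ) (hε : 0 < ε)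
    (A : Set ℕ) (hA : A.Infinite) (n₀ : ℕ)
    (hmono : ∀ n, n₀ ≤ n → rep A k i n ≤ rep A k i (n + 1)) (C : ℝ) (N : ℕ)
    (h : ∀ n : ℕ, N ≤ n → ((A ∩ Set.Icc 1 n).ncard : ℝ) ≤ C * (n : ℝ) ^ (2 / (k : ℝ) - ε)) :
    False := by
  have hk0 : (0 : ℝ) < k := by exact_mod_cast (by omega : 0 < k)
  have hk2 : (2 : ℝ) ≤ k := by exact_mod_cast hk
  set p : ℝ := 2 / (k : ℝ) with hp
  have hp0 : 0 < p := by positivity
  have hp1 : p ≤ 1 := by rw [hp, div_le_one hk0]; exact hk2
  have hkp : (k : ℝ) * p = 2 := by rw [hp]; field_simp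
  set ε' : ℝ := min ε (p / 2) with hε'
  have hε'0 : 0 < ε' := lt_min hε (by positivity)
  have hε'1 : ε' ≤ ε := min_le_left _ _
  have hε'2 : ε' ≤ p / 2 := min_le_right _ _
  set α : ℝ := p - ε' with hα
  have hα0 : 0 < α := by linarith
  have hα1 : α ≤ 1 := by linarith
  set η : ℝ := ε' / 2 with hη
  have hη0 : 0 < η := by positivity
  set β : ℝ := p - η with hβ
  have hβ0 : 0 < β := by linarith
  obtain ⟨K₂, hK₂0, hK₂⟩ := genR_upper A α hα0 hα1 |C| (max N 1) (by
    intro n hn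
    have hn1 : 1 ≤ n := (le_max_right _ _).trans hn
    have h1 := h n ((le_max_left _ _).trans hn)
    have hn1' : (1 : ℝ) ≤ n := by exact_mod_cast hn1
    have h2 : (n : ℝ) ^ (p - ε) ≤ (n : ℝ) ^ α := Real.rpow_le_rpow_of_exponent_le hn1' (by linarith)
    calc ((A ∩ Set.Icc 1 n).ncard : ℝ) ≤ C * (n : ℝ) ^ (p - ε) := h1
      _ ≤ |C| * (n : ℝ) ^ α := mul_le_mul (le_abs_self C) h2 (by positivity) (abs_nonneg C))
  obtain ⟨K, hK0, hK⟩ := main_ineq k hk i hi A n₀ hmono η hη0 (by linarith)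
  obtain ⟨n₁, hn₁⟩ := rep_pos_of_ge k hk i A hA n₀ hmono
  set C0 : ℝ := 2 * ∑ n ∈ range n₀, (rep A k i n : ℝ) with hC0
  have hC00 : 0 ≤ C0 := by positivity
  set c1 : ℝ := (1 / 2) ^ n₁ with hc1
  have hc10 : 0 < c1 := by positivity
  set K' : ℝ := K * ((1 + C0 / c1) ^ p + (1 / c1) ^ p) with hK'
  have hK'0 : 0 < K' := by positivity
  set M : ℝ := 2 ^ β * K' with hM
  have hM0 : 0 < M := by positivity
  -- the recursive inequality
  have hrec : ∀ s : ℝ, 1 / 2 ≤ s → s < 1 →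
      M * ((1 - s ^ 2) ^ β * genR A (s ^ 2)) ≤ (M * ((1 - s) ^ β * genR A s)) ^ 2 := by
    intro s hs hs1
    have hs0 : 0 ≤ s := by linarith
    have h1s : 0 < 1 - s := by linarith
    set u : ℝ := (1 - s) * repGen A k i s with hu
    have hu1 : c1 ≤ u := by
      have := repGen_lower k i A n₁ hn₁ hs0 hs1
      refine le_trans ?_ this
      exact pow_le_pow_left₀ (by norm_num) hs _
    have hu0 : 0 < u := lt_of_lt_of_le hc10 hu1
    have h1 := hK s (by linarith) hs1
    have h2 : u + C0 ≤ (1 + C0 / c1) * u := by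
      have : C0 ≤ C0 / c1 * u := by
        rw [div_mul_eq_mul_div, le_div_iff₀ hc10]
        exact mul_le_mul_of_nonneg_left hu1 hC00
      linarith
    have h3 : (u + C0) ^ p ≤ (1 + C0 / c1) ^ p * u ^ p := by
      rw [← Real.mul_rpow (by positivity) hu0.le]
      exact Real.rpow_le_rpow (by positivity) h2 hp0.le
    have h4 : 1 ≤ (1 / c1) ^ p * u ^ p := by
      rw [← Real.mul_rpow (by positivity) hu0.le]
      apply Real.one_le_rpow _ hp0.le
      rw [div_mul_eq_mul_div, one_mul, le_div_iff₀ hc10]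
      linarith
    have h5 : 1 ≤ (1 - s) ^ (-η) := Real.one_le_rpow_of_pos_of_le_one_of_nonpos h1s (by linarith)
      (by linarith)
    have hw0 : 0 ≤ (1 - s) ^ (-η) := by positivity
    have h6 : genR A (s ^ 2) ≤ K' * ((1 - s) ^ (-η) * u ^ p) := by
      have h7 : (1 - s) ^ (-η) * (u + C0) ^ p + 1
          ≤ ((1 + C0 / c1) ^ p + (1 / c1) ^ p) * ((1 - s) ^ (-η) * u ^ p) := by
        have e1 : (1 - s) ^ (-η) * (u + C0) ^ p ≤ (1 - s) ^ (-η) * ((1 + C0 / c1) ^ p * u ^ p) :=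
          mul_le_mul_of_nonneg_left h3 hw0
        have e2 : (1 : ℝ) ≤ (1 - s) ^ (-η) * ((1 / c1) ^ p * u ^ p) := by
          calc (1 : ℝ) = 1 * 1 := by ring
            _ ≤ _ := mul_le_mul h5 h4 zero_le_one hw0
        linarith
      calc genR A (s ^ 2) ≤ K * ((1 - s) ^ (-η) * (u + C0) ^ p + 1) := h1
        _ ≤ K * (((1 + C0 / c1) ^ p + (1 / c1) ^ p) * ((1 - s) ^ (-η) * u ^ p)) :=
            mul_le_mul_of_nonneg_left h7 hK0.le
        _ = _ := by rw [hK']; ring
    -- bound u by f^k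
    have hf0 : 0 ≤ genR A s := genR_nonneg A hs0
    have h7 : u ≤ (1 - s) * genR A s ^ k :=
      mul_le_mul_of_nonneg_left (repGen_le A k i hs0 hs1) h1s.le
    have h8 : u ^ p ≤ (1 - s) ^ p * genR A s ^ 2 := by
      calc u ^ p ≤ ((1 - s) * genR A s ^ k) ^ p := Real.rpow_le_rpow hu0.le h7 hp0.le
        _ = (1 - s) ^ p * (genR A s ^ k) ^ p := Real.mul_rpow h1s.le (by positivity)
        _ = (1 - s) ^ p * genR A s ^ 2 := by
            congr 1
            rw [← Real.rpow_natCast, ← Real.rpow_natCast, ← Real.rpow_mul hf0, hkp]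
            norm_num
    have h9 : genR A (s ^ 2) ≤ K' * ((1 - s) ^ β * genR A s ^ 2) := by
      refine h6.trans ?_
      refine mul_le_mul_of_nonneg_left ?_ hK'0.le
      calc (1 - s) ^ (-η) * u ^ p ≤ (1 - s) ^ (-η) * ((1 - s) ^ p * genR A s ^ 2) :=
            mul_le_mul_of_nonneg_left h8 hw0
        _ = (1 - s) ^ β * genR A s ^ 2 := by
            rw [← mul_assoc, ← Real.rpow_add h1s]
            congr 2
            rw [hβ]; ring
    have h10 : (1 - s ^ 2) ^ β ≤ 2 ^ β * (1 - s) ^ β := by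
      rw [← Real.mul_rpow (by norm_num) h1s.le]
      apply Real.rpow_le_rpow (by nlinarith) (by nlinarith) hβ0.le
    have hsβ : 0 ≤ (1 - s) ^ β := by positivity
    calc M * ((1 - s ^ 2) ^ β * genR A (s ^ 2))
        ≤ M * ((2 ^ β * (1 - s) ^ β) * (K' * ((1 - s) ^ β * genR A s ^ 2))) := by
          refine mul_le_mul_of_nonneg_left ?_ hM0.le
          refine mul_le_mul h10 h9 (genR_nonneg A (by positivity)) (by positivity)
      _ = (M * ((1 - s) ^ β * genR A s)) ^ 2 := by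
          rw [hM]; ring
  -- smallness near 1
  have hsmall : ∃ r₀ : ℝ, 1 / 2 ≤ r₀ ∧ r₀ < 1 ∧ ∀ s : ℝ, r₀ ≤ s → s < 1 →
      M * ((1 - s) ^ β * genR A s) ≤ 1 / 2 := by
    have hγ : 0 < β - α := by rw [hβ, hα]; linarith
    -- choose t with M * K₂ * t ^ (β - α) ≤ 1 / 2
    set t : ℝ := min (1 / 2) ((1 / (2 * M * K₂)) ^ (1 / (β - α))) with ht
    have ht0 : 0 < t := lt_min (by norm_num) (by positivity)
    have ht1 : t ≤ 1 / 2 := min_le_left _ _
    have ht2 : t ≤ (1 / (2 * M * K₂)) ^ (1 / (β - α)) := min_le_right _ _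
    have ht3 : t ^ (β - α) ≤ 1 / (2 * M * K₂) := by
      calc t ^ (β - α) ≤ ((1 / (2 * M * K₂)) ^ (1 / (β - α))) ^ (β - α) :=
            Real.rpow_le_rpow ht0.le ht2 hγ.le
        _ = 1 / (2 * M * K₂) := by
            rw [← Real.rpow_mul (by positivity), one_div_mul_cancel hγ.ne', Real.rpow_one]
    refine ⟨1 - t, by linarith, by linarith, ?_⟩
    intro s hs hs1
    have h1s : 0 < 1 - s := by linarith
    have h1 := hK₂ s (by linarith) hs1
    have h2 : (1 - s) ^ β * genR A s ≤ K₂ * (1 - s) ^ (β - α) := by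
      calc (1 - s) ^ β * genR A s ≤ (1 - s) ^ β * (K₂ * (1 - s) ^ (-α)) :=
            mul_le_mul_of_nonneg_left h1 (by positivity)
        _ = K₂ * ((1 - s) ^ β * (1 - s) ^ (-α)) := by ring
        _ = K₂ * (1 - s) ^ (β - α) := by
            rw [← Real.rpow_add h1s]; rfl
    have h3 : (1 - s) ^ (β - α) ≤ t ^ (β - α) := Real.rpow_le_rpow h1s.le (by linarith) hγ.le
    calc M * ((1 - s) ^ β * genR A s) ≤ M * (K₂ * (1 / (2 * M * K₂))) := by
          refine mul_le_mul_of_nonneg_left (h2.trans ?_) hM0.le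
          exact mul_le_mul_of_nonneg_left (h3.trans ht3) hK₂0.le
      _ = 1 / 2 := by field_simp
  obtain ⟨r₀, hr₀, hr₀1, hr₀2⟩ := hsmall
  -- iteration
  have hiter : ∀ j : ℕ, ∀ s : ℝ, r₀ ≤ s → s < 1 →
      M * ((1 - s) ^ β * genR A s) ≤ (1 / 2) ^ (2 ^ j) := by
    intro j
    induction j with
    | zero => intro s hs hs1; simpa using hr₀2 s hs hs1
    | succ j ih =>
      intro s hs hs1
      have hs0 : 0 ≤ s := by linarith
      have hq0 : 0 ≤ Real.sqrt s := Real.sqrt_nonneg s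
      have hq1 : Real.sqrt s < 1 := by
        rw [Real.sqrt_lt' one_pos]; simpa using hs1
      have hqs : s ≤ Real.sqrt s := by
        exact (Real.le_sqrt hs0 hs0).2 (by nlinarith)
      have h1 := hrec (Real.sqrt s) (by linarith) hq1
      rw [Real.sq_sqrt hs0] at h1
      have h2 := ih (Real.sqrt s) (by linarith) hq1
      refine h1.trans ?_
      calc (M * ((1 - Real.sqrt s) ^ β * genR A (Real.sqrt s))) ^ 2
          ≤ ((1 / 2) ^ (2 ^ j)) ^ 2 := by
            refine pow_le_pow_left₀ ?_ h2 2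
            have : 0 ≤ genR A (Real.sqrt s) := genR_nonneg A hq0
            have : 0 ≤ (1 - Real.sqrt s) ^ β := Real.rpow_nonneg (by linarith) _
            positivity
        _ = (1 / 2) ^ (2 ^ (j + 1)) := by
            rw [← pow_mul]; congr 1
  -- positivity at r₀
  have hpos : 0 < M * ((1 - r₀) ^ β * genR A r₀) := by
    have h1 : 0 < genR A r₀ := by
      obtain ⟨a, ha⟩ := hA.nonempty
      unfold genR
      refine (summable_genR A (by linarith) hr₀1).tsum_pos ?_ a ?_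
      · intro n
        by_cases h : n ∈ A
        · simp only [h, Set.indicator_of_mem]
          have : 0 ≤ r₀ := by linarith
          positivity
        · simp [h]
      · simp only [ha, Set.indicator_of_mem]
        have : 0 < r₀ := by linarith
        positivity
    have h2 : 0 < (1 - r₀) ^ β := Real.rpow_pos_of_pos (by linarith) _
    positivity
  have hlim : Filter.Tendsto (fun j : ℕ => ((1 : ℝ) / 2) ^ (2 ^ j)) Filter.atTop (nhds 0) := by
    have h1 : Filter.Tendsto (fun n : ℕ => ((1 : ℝ) / 2) ^ n) Filter.atTop (nhds 0) :=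
      tendsto_pow_atTop_nhds_zero_of_lt_one (by norm_num) (by norm_num)
    have h2 : Filter.Tendsto (fun j : ℕ => 2 ^ j) Filter.atTop Filter.atTop :=
      tendsto_pow_atTop_atTop_of_one_lt (by norm_num)
    exact h1.comp h2
  have hle0 : M * ((1 - r₀) ^ β * genR A r₀) ≤ 0 :=
    ge_of_tendsto' hlim fun j => hiter j r₀ le_rfl hr₀1
  linarith

end Pool.Agent.RepGrowth
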